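import Pool.Agent.Lib.MP_417c68_gt_P.Defs

/-!
# MP_417c68_gt, project P, module A/Alg: algebra of Lie triple systems

PROOFS.
* `ps` (pair symmetry): the usual argument for algebraic curvature tensors.  Write
  `r x y z w = ip (T x y z) w`; `r` is skew in `x, y` (`skew`), skew in `z, w` (`inv`, `symm`) and
  satisfies the cyclic identity (`jac`); sum the four cyclic identities for `(x, y, z, w)`,
  `(y, z, w, x)`, `(z, w, x, y)`, `(w, x, y, z)` (`linarith`).
* `T_zero₂`: take the three pairs `(x, y)`, `(u, w)`, `(t • a, b)` in `neg` (`m = 3`): the left hand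
  side is `q + 2 t ip ((T x y + T u w) a) b + t ^ 2 ip (T a b a) b` with `q = 0` by hypothesis
  (use `ps` for the mixed terms), it is `≤ 0` for all real `t`, so the linear term vanishes for all
  `a, b`.  `T_zero`: the case `u = w = 0`.
* `com_T`: `jac x y z` and `T y z = 0`, `T z x = 0`.
* `ideal_com`: `T a b a ∈ I` and `b ⊥ I`, so `ip (T a b a) b = 0`: `T_zero`.
* `ideal_sub`: `ip (T x y z) a = ip (T z a x) y = 0` by `ps` and `ideal_com`.
* `T_perp`: `ip (T x y z) c = ip (T z c x) y = 0`.
-/

noncomputable section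

namespace Pool.Agent.MP417P

open Module

namespace LTS

variable {E : Type} [AddCommGroup E] [Module ℝ E] (S : LTS E)

theorem T_self (x : E) : S.T x x = 0 := by
  have h := S.skew x x
  ext z
  have h2 : S.T x x z = -S.T x x z := h z
  have h3 : (2 : ℝ) • S.T x x z = 0 := by
    rw [two_smul]
    nth_rewrite 2 [h2]
    rw [add_neg_cancel]
  rw [LinearMap.zero_apply]
  exact (smul_eq_zero.1 h3).resolve_left two_ne_zero

theorem T_neg (x y : E) : S.T y x = -S.T x y := by
  ext z
  rw [LinearMap.neg_apply]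
  exact S.skew y x z

theorem T_symm {x y : E} (h : S.T x y = 0) : S.T y x = 0 := by
  rw [S.T_neg, h, neg_zero]

theorem ip_nonneg (x : E) : 0 ≤ S.ip x x := by
  by_cases hx : x = 0
  · rw [hx, map_zero]
  · exact (S.pos x hx).le

theorem ip_zero {x : E} (h : S.ip x x = 0) : x = 0 := by
  by_contra hx
  exact (S.pos x hx).ne' h

/-- pair symmetry -/
theorem ps (x y z w : E) : S.ip (S.T x y z) w = S.ip (S.T z w x) y := by
  have sk : ∀ a b c d, S.ip (S.T a b c) d = -S.ip (S.T b a c) d := fun a b c d => by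
    rw [S.skew a b c, map_neg, LinearMap.neg_apply]
  have iv : ∀ a b c d, S.ip (S.T a b c) d = -S.ip (S.T a b d) c := fun a b c d => by
    rw [S.inv a b c d, S.symm]
  have jc : ∀ a b c d, S.ip (S.T a b c) d + S.ip (S.T b c a) d + S.ip (S.T c a b) d = 0 :=
    fun a b c d => by
      rw [← LinearMap.add_apply, ← LinearMap.add_apply, ← map_add, ← map_add, S.jac a b c, map_zero,
        LinearMap.zero_apply]
  have j1 := jc x y z w
  have j2 := jc y z w x
  have j3 := jc z w x y
  have j4 := jc w x y z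
  have a1 := iv y z x w
  have a2 := sk z x y w
  have a3 := iv x z y w
  have a4 := iv y z w x
  have a5 := iv z w y x
  have a6 := iv w y z x
  have a7 := iv w x z y
  have a8 := iv x z w y
  have a9 := sk w y x z
  have a10 := iv y w x z
  have a11 := sk w x y z
  have a12 := iv x y w z
  have a13 := iv z w x y
  have a14 := sk w y z x
  have a15 := iv w x y z
  have a16 := iv x y z w
  have a17 := iv y w z x
  linarith

theorem T_nonpos (x y : E) : S.ip (S.T x y x) y ≤ 0 := by
  have h := S.neg 1 (fun _ => x) fun _ => y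
  simpa using h

theorem T_zero₂ {x y u w : E}
    (h : S.ip (S.T x y x + S.T u w x) y + S.ip (S.T x y u + S.T u w u) w = 0) :
    S.T x y + S.T u w = 0 := by
  have key : ∀ a b, S.ip ((S.T x y + S.T u w) a) b = 0 := by
    intro a b
    obtain ⟨L, hL⟩ : ∃ L, L = S.ip ((S.T x y + S.T u w) a) b := ⟨_, rfl⟩
    obtain ⟨M, hM⟩ : ∃ M, M = S.ip (S.T a b a) b := ⟨_, rfl⟩
    have hM0 : M ≤ 0 := by
      rw [hM]
      exact S.T_nonpos a b
    have hq : ∀ t : ℝ, 2 * t * L + t ^ 2 * M ≤ 0 := by
      intro t
      have h3 := S.neg 3 ![x, u, t • a] ![y, w, b]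
      simp only [Fin.sum_univ_three, Matrix.cons_val_zero, Matrix.cons_val_one,
        Matrix.cons_val_two, Matrix.head_cons, Matrix.tail_cons] at h3
      have p1 := S.ps a b x y
      have p2 := S.ps a b u w
      rw [map_add, LinearMap.add_apply, map_add, LinearMap.add_apply] at h
      rw [LinearMap.add_apply, map_add, LinearMap.add_apply] at hL
      simp only [map_smul, LinearMap.smul_apply, smul_eq_mul] at h3
      rw [p1, p2] at h3
      rw [hL, hM]
      linear_combination h3 - h
    rw [← hL]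
    by_contra hne
    have h4 := hq (L / (1 - M))
    have h1M : 0 < 1 - M := by linarith
    have h5 : 2 * (L / (1 - M)) * L + (L / (1 - M)) ^ 2 * M = L ^ 2 * (2 - M) / (1 - M) ^ 2 := by
      field_simp
      ring
    rw [h5] at h4
    have h6 : 0 < L ^ 2 * (2 - M) / (1 - M) ^ 2 := by
      have : 0 < L ^ 2 := by positivity
      have h7 : 0 < 2 - M := by linarith
      positivity
    linarith
  ext a
  rw [LinearMap.zero_apply]
  exact S.ip_zero (key a _)

theorem T_zero {x y : E} (h : S.ip (S.T x y x) y = 0) : S.T x y = 0 := by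
  have h2 := S.T_zero₂ (x := x) (y := y) (u := 0) (w := 0) (by simpa using h)
  simpa using h2

/-- the commutator of two operators `T` -/
theorem der_op (a b x y z : E) : S.T a b (S.T x y z) - S.T x y (S.T a b z) =
    S.T (S.T a b x) y z + S.T x (S.T a b y) z := by
  rw [S.der a b x y z]
  abel

theorem com_T {x y z : E} (h1 : S.T x z = 0) (h2 : S.T y z = 0) : S.T x y z = 0 := by
  have h := S.jac x y z
  rw [h2, S.T_symm h1, LinearMap.zero_apply, LinearMap.zero_apply, add_zero, add_zero] at h
  exact h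

/-- an ideal `I` of `V` commutes with its orthogonal complement in `V` -/
theorem ideal_com {V I : Submodule ℝ E} (hIV : I ≤ V)
    (hI : ∀ a ∈ I, ∀ b ∈ V, ∀ c ∈ V, S.T a b c ∈ I) {a b : E} (ha : a ∈ I) (hb : b ∈ V)
    (hb' : b ∈ S.perp I) : S.T a b = 0 := by
  refine S.T_zero ?_
  rw [S.symm]
  exact hb' _ (hI a ha b hb a (hIV ha))

/-- the orthogonal complement of an ideal is a subtriple -/
theorem ideal_sub {V I : Submodule ℝ E} (hV : S.Sub V) (hIV : I ≤ V)
    (hI : ∀ a ∈ I, ∀ b ∈ V, ∀ c ∈ V, S.T a b c ∈ I) : S.Sub (V ⊓ S.perp I) := by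
  intro x hx y hy z hz
  refine ⟨hV x hx.1 y hy.1 z hz.1, fun a ha => ?_⟩
  rw [S.ps x y z a, S.T_symm (S.ideal_com hIV hI ha hz.1 hz.2), LinearMap.zero_apply, map_zero,
    LinearMap.zero_apply]

/-- `T x y z` is orthogonal to the centre -/
theorem T_perp (x y z : E) : S.T x y z ∈ S.perp (S.cen ⊤) := by
  intro c hc
  rw [S.ps x y z c, S.T_symm (hc.2 z Submodule.mem_top), LinearMap.zero_apply, map_zero,
    LinearMap.zero_apply]

end LTS

end Pool.Agent.MP417P
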