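import Pool.Agent.Lib.MP_417c68_gt_P.A.Ons

/-!
# MP_417c68_gt, project P, module A/Cv: centres, restrictions, products, images

`ss V` is the semisimple part of `V`: the orthogonal complement of the centre in `V`.

PROOFS.
* `cen_res`: if `x : V` is central in `S.res V` then `ip (T x y x) y = 0` for `y ∈ V`, so
  `T x y = 0` by `T_zero`.
* `ss_cen`: `x ∈ ss V` central in `ss V` commutes with `cen V` (by definition of the centre), so
  with
  `V = cen V ⊔ ss V` (`decomp`), so `x ∈ cen V ∩ (cen V)^⊥`.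
* `cen_ideal_free` (`cen_sub_ideal`): for `V = I ⊔ J` with commuting subtriples `I, J`:
  `cen J ≤ cen V`.
* `ctl_perp`: `V` centreless subtriple, `c` central in `E`.  Let `P` be the projection onto `V`
  (`exists_proj`), `c' = P c`.  For `y, u, w ∈ V`:
  `ip (T c' y u) w = ip (T u w c') y = ip (T u w c) y - ip (T u w (c - c')) y = 0 - 0` because
  `T u w c = 0` (`com_T`) and `ip (T u w (c - c')) y = -ip (c - c') (T u w y) = 0`.  So
  `ip (T c' y c') y = 0`, `T c' y = 0`, `c' ∈ cen V`, `c' = 0` and `c ⊥ V`.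
-/

noncomputable section

namespace Pool.Agent.MP417P

open Module

namespace LTS

section alg

variable {E E' : Type} [AddCommGroup E] [Module ℝ E] [AddCommGroup E'] [Module ℝ E'] (S : LTS E)

theorem cen_res {V : Submodule ℝ E} (hV : S.Sub V) (h : S.cen V = ⊥) :
    (S.res V hV).cen ⊤ = ⊥ := by
  refine (Submodule.eq_bot_iff _).2 fun x hx => ?_
  have h1 : x.1 ∈ S.cen V := by
    refine ⟨x.2, fun y hy => S.T_zero ?_⟩
    have h2 := congrArg (fun f : V →ₗ[ℝ] V => ((f x : V) : E)) (hx.2 ⟨y, hy⟩ trivial)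
    have h3 : S.T x.1 y x.1 = 0 := h2
    rw [h3, map_zero, LinearMap.zero_apply]
  rw [h] at h1
  exact Subtype.ext ((Submodule.mem_bot ℝ).1 h1)

/-- `Q` seen in `V`; here `Q ≤ V` is given as a subspace of `V` -/
theorem cen_res_map {V : Submodule ℝ E} (hV : S.Sub V) {Q : Submodule ℝ V}
    (h : (S.res V hV).cen Q = ⊥) : S.cen (Q.map V.subtype) = ⊥ := by
  refine (Submodule.eq_bot_iff _).2 fun x hx => ?_
  obtain ⟨⟨q, hq, rfl⟩, h1⟩ := hx
  have h2 : q ∈ (S.res V hV).cen Q := by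
    refine ⟨hq, fun y hy => LinearMap.ext fun z => Subtype.ext ?_⟩
    have h3 := h1 (V.subtype y) (Submodule.mem_map_of_mem hy)
    exact congrArg (fun f : E →ₗ[ℝ] E => f z.1) h3
  rw [h, Submodule.mem_bot] at h2
  rw [h2, map_zero]

theorem cen_prod (S' : LTS E') (h : S.cen ⊤ = ⊥) (h' : S'.cen ⊤ = ⊥) :
    (S.prod S').cen ⊤ = ⊥ := by
  refine (Submodule.eq_bot_iff _).2 fun x hx => ?_
  have h1 : x.1 ∈ S.cen ⊤ := by
    refine ⟨trivial, fun y _ => LinearMap.ext fun z => ?_⟩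
    exact congrArg (fun f : E × E' →ₗ[ℝ] E × E' => (f (z, 0)).1) (hx.2 (y, 0) trivial)
  have h2 : x.2 ∈ S'.cen ⊤ := by
    refine ⟨trivial, fun y _ => LinearMap.ext fun z => ?_⟩
    exact congrArg (fun f : E × E' →ₗ[ℝ] E × E' => (f (0, z)).2) (hx.2 (0, y) trivial)
  rw [h, Submodule.mem_bot] at h1
  rw [h', Submodule.mem_bot] at h2
  exact Prod.ext h1 h2

theorem sub_top : S.Sub ⊤ := fun _ _ _ _ _ _ => trivial

theorem sub_map {S' : LTS E'} {f : E' →ₗ[ℝ] E} (hf : Hom S' S f) {V : Submodule ℝ E'}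
    (hV : S'.Sub V) : S.Sub (V.map f) := by
  rintro _ ⟨a, ha, rfl⟩ _ ⟨b, hb, rfl⟩ _ ⟨c, hc, rfl⟩
  exact ⟨S'.T a b c, hV a ha b hb c hc, hf a b c⟩

/-- the sum of two commuting subtriples -/
theorem sub_sup {V V' : Submodule ℝ E} (hV : S.Sub V) (hV' : S.Sub V')
    (h : ∀ x ∈ V, ∀ y ∈ V', S.T x y = 0) : S.Sub (V ⊔ V') := by
  intro x hx y hy z hz
  obtain ⟨x1, hx1, x2, hx2, rfl⟩ := Submodule.mem_sup.1 hx
  obtain ⟨y1, hy1, y2, hy2, rfl⟩ := Submodule.mem_sup.1 hy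
  obtain ⟨z1, hz1, z2, hz2, rfl⟩ := Submodule.mem_sup.1 hz
  have e1 : S.T (x1 + x2) (y1 + y2) = S.T x1 y1 + S.T x2 y2 := by
    rw [S.T.map_add, LinearMap.add_apply, map_add, map_add, h x1 hx1 y2 hy2,
      S.T_symm (h y1 hy1 x2 hx2), add_zero, zero_add]
  have e2 : S.T x1 y1 z2 = 0 := S.com_T (h x1 hx1 z2 hz2) (h y1 hy1 z2 hz2)
  have e3 : S.T x2 y2 z1 = 0 :=
    S.com_T (S.T_symm (h z1 hz1 x2 hx2)) (S.T_symm (h z1 hz1 y2 hy2))
  rw [e1, LinearMap.add_apply, map_add, map_add, e2, e3, add_zero, zero_add]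
  exact Submodule.mem_sup.2 ⟨_, hV x1 hx1 y1 hy1 z1 hz1, _, hV' x2 hx2 y2 hy2 z2 hz2, rfl⟩

theorem sub_inf {V V' : Submodule ℝ E} (hV : S.Sub V) (hV' : S.Sub V') : S.Sub (V ⊓ V') := by
  exact fun x hx y hy z hz => ⟨hV x hx.1 y hy.1 z hz.1, hV' x hx.2 y hy.2 z hz.2⟩

theorem sub_cen {V : Submodule ℝ E} : S.Sub (S.cen V) := by
  intro x hx y hy z _
  rw [hx.2 y hy.1, LinearMap.zero_apply]
  exact Submodule.zero_mem _

/-- if `I` and `J` commute then the centre of `J` is central in `I ⊔ J` -/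
theorem cen_le_sup {I J : Submodule ℝ E} (h : ∀ x ∈ I, ∀ y ∈ J, S.T x y = 0) :
    S.cen J ≤ S.cen (I ⊔ J) := by
  intro x hx
  refine ⟨Submodule.mem_sup_right hx.1, fun y hy => ?_⟩
  obtain ⟨a, ha, b, hb, rfl⟩ := Submodule.mem_sup.1 hy
  rw [map_add, S.T_symm (h a ha x hx.1), hx.2 b hb, add_zero]

theorem perp_bot : S.perp (⊥ : Submodule ℝ E) = ⊤ := by
  refine (Submodule.eq_top_iff').2 fun x y hy => ?_
  rw [(Submodule.mem_bot ℝ).1 hy, map_zero]

/-- the semisimple part of a subtriple -/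
def ss (S : LTS E) (V : Submodule ℝ E) : Submodule ℝ E := V ⊓ S.perp (S.cen V)

theorem ss_sub {V : Submodule ℝ E} (hV : S.Sub V) : S.Sub (S.ss V) := by
  refine S.ideal_sub hV (fun x hx => hx.1) fun a ha b hb c _ => ?_
  rw [ha.2 b hb, LinearMap.zero_apply]
  exact Submodule.zero_mem _

variable [FiniteDimensional ℝ E]

theorem cen_sup_ss (V : Submodule ℝ E) : S.cen V ⊔ S.ss V = V := by
  exact S.decomp fun x hx => hx.1

theorem ss_cen (V : Submodule ℝ E) : S.cen (S.ss V) = ⊥ := by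
  refine (Submodule.eq_bot_iff _).2 fun x hx => ?_
  have h1 : x ∈ S.cen V := by
    refine ⟨hx.1.1, fun y hy => ?_⟩
    rw [← S.cen_sup_ss V] at hy
    obtain ⟨c, hc, s, hs, rfl⟩ := Submodule.mem_sup.1 hy
    rw [map_add, S.T_symm (hc.2 x hx.1.1), hx.2 s hs, add_zero]
  have h2 : x ∈ S.cen V ⊓ S.perp (S.cen V) := ⟨h1, hx.1.2⟩
  rw [S.perp_inf] at h2
  exact (Submodule.mem_bot ℝ).1 h2

theorem finrank_ss (V : Submodule ℝ E) :
    finrank ℝ (S.cen V) + finrank ℝ (S.ss V) = finrank ℝ V := by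
  have h1 : S.cen V ⊓ S.ss V = ⊥ := by
    refine le_bot_iff.1 (le_trans ?_ (S.perp_inf (S.cen V)).le)
    exact fun x hx => ⟨hx.1, hx.2.2⟩
  have h2 := Submodule.finrank_sup_add_finrank_inf_eq (S.cen V) (S.ss V)
  rw [h1, finrank_bot, add_zero, S.cen_sup_ss] at h2
  exact h2.symm

/-- a centreless subtriple is orthogonal to the centre -/
theorem ctl_perp {V : Submodule ℝ E} (hV : S.Sub V) (h : S.cen V = ⊥) :
    V ≤ S.perp (S.cen ⊤) := by
  intro v hv c hc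
  obtain ⟨P, hP1, hP2, hP3, hP4⟩ := S.exists_proj V
  have h1 : P c ∈ S.cen V := by
    refine ⟨hP1 c, fun y hy => S.T_zero ?_⟩
    have e1 : S.T (P c) y c = 0 := S.com_T (S.T_symm (hc.2 (P c) trivial))
      (S.T_symm (hc.2 y trivial))
    have e2 : S.ip (S.T (P c) y (c - P c)) y = 0 := by
      rw [S.inv, hP4 c _ (hV _ (hP1 c) y hy y hy), neg_zero]
    rw [map_sub, e1, zero_sub, map_neg, LinearMap.neg_apply, neg_eq_zero] at e2
    exact e2
  rw [h, Submodule.mem_bot] at h1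
  have h2 := hP3 v c
  rw [h1, hP2 v hv, map_zero] at h2
  exact h2

end alg

section top

variable {E : Type} [NormedAddCommGroup E] [NormedSpace ℝ E] (S : LTS E)

private theorem cv_mi (k : GLE E) (x : E) : k.1 ((k⁻¹ : GLE E).1 x) = x :=
  congrArg (fun A : E →L[ℝ] E => A x) k.mul_inv

private theorem cv_im (k : GLE E) (x : E) : (k⁻¹ : GLE E).1 (k.1 x) = x :=
  congrArg (fun A : E →L[ℝ] E => A x) k.inv_mul

private theorem cv_inj (k : GLE E) : Function.Injective k.1 := fun x y h => by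
  rw [← cv_im k x, h, cv_im]

theorem im_sub {k : GLE E} (hk : S.Aut k) {V : Submodule ℝ E} (hV : S.Sub V) :
    S.Sub (im k V) := by
  rintro _ ⟨a, ha, rfl⟩ _ ⟨b, hb, rfl⟩ _ ⟨c, hc, rfl⟩
  exact ⟨S.T a b c, hV a ha b hb c hc, hk.1 a b c⟩

theorem im_cen {k : GLE E} (hk : S.Aut k) (V : Submodule ℝ E) :
    S.cen (im k V) = im k (S.cen V) := by
  refine le_antisymm (fun x hx => ?_) fun x hx => ?_
  · obtain ⟨⟨v, hv, rfl⟩, h1⟩ := hx
    refine ⟨v, ⟨hv, fun w hw => LinearMap.ext fun z => cv_inj k ?_⟩, rfl⟩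
    have h2 := congrArg (fun f : E →ₗ[ℝ] E => f (k.1 z)) (h1 (k.1 w) ⟨w, hw, rfl⟩)
    rw [hk.1, LinearMap.zero_apply, map_zero]
    exact h2
  · obtain ⟨v, hv, rfl⟩ := hx
    refine ⟨⟨v, hv.1, rfl⟩, ?_⟩
    rintro _ ⟨w, hw, rfl⟩
    refine LinearMap.ext fun z => ?_
    have h2 := hk.1 v w ((k⁻¹ : GLE E).1 z)
    rw [cv_mi, hv.2 w hw, LinearMap.zero_apply, map_zero] at h2
    exact h2.symm

theorem im_perp {k : GLE E} (hk : S.Aut k) (V : Submodule ℝ E) :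
    S.perp (im k V) = im k (S.perp V) := by
  refine le_antisymm (fun x hx => ?_) fun x hx => ?_
  · refine ⟨(k⁻¹ : GLE E).1 x, fun w hw => ?_, cv_mi k x⟩
    rw [← hk.2, cv_mi]
    exact hx _ ⟨w, hw, rfl⟩
  · obtain ⟨v, hv, rfl⟩ := hx
    rintro _ ⟨w, hw, rfl⟩
    exact (hk.2 v w).trans (hv w hw)

theorem im_ss {k : GLE E} (hk : S.Aut k) (V : Submodule ℝ E) :
    S.ss (im k V) = im k (S.ss V) := by
  have h1 : LTS.im k (V ⊓ S.perp (S.cen V)) = LTS.im k V ⊓ LTS.im k (S.perp (S.cen V)) :=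
    Submodule.map_inf _ (cv_inj k)
  rw [ss, ss, h1, S.im_cen hk, S.im_perp hk]

theorem im_top (k : GLE E) : im k (⊤ : Submodule ℝ E) = ⊤ := by
  refine (Submodule.eq_top_iff').2 fun x => ⟨(k⁻¹ : GLE E).1 x, trivial, cv_mi k x⟩

theorem im_im (k k' : GLE E) (V : Submodule ℝ E) : im k (im k' V) = im (k * k') V := by
  refine le_antisymm ?_ ?_
  · rintro _ ⟨_, ⟨v, hv, rfl⟩, rfl⟩
    exact ⟨v, hv, rfl⟩
  · rintro _ ⟨v, hv, rfl⟩
    exact ⟨_, ⟨v, hv, rfl⟩, rfl⟩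

theorem im_one (V : Submodule ℝ E) : im (1 : GLE E) V = V := by
  refine le_antisymm ?_ fun v hv => ⟨v, hv, rfl⟩
  rintro _ ⟨v, hv, rfl⟩
  exact hv

theorem finrank_im (k : GLE E) (V : Submodule ℝ E) : finrank ℝ (im k V) = finrank ℝ V := by
  exact (Submodule.equivMapOfInjective (k.1 : E →ₗ[ℝ] E) (cv_inj k) V).finrank_eq.symm

theorem aut_inv {k : GLE E} (hk : S.Aut k) : S.Aut k⁻¹ := by
  refine ⟨fun x y z => cv_inj k ?_, fun x y => ?_⟩
  · rw [cv_mi, hk.1, cv_mi, cv_mi, cv_mi]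
  · rw [← hk.2, cv_mi, cv_mi]

theorem aut_mul {k k' : GLE E} (hk : S.Aut k) (hk' : S.Aut k') : S.Aut (k * k') := by
  refine ⟨fun x y z => ?_, fun x y => ?_⟩
  · change k.1 (k'.1 _) = S.T (k.1 (k'.1 x)) (k.1 (k'.1 y)) (k.1 (k'.1 z))
    rw [hk'.1, hk.1]
  · change S.ip (k.1 (k'.1 x)) (k.1 (k'.1 y)) = _
    rw [hk.2, hk'.2]

/-- `Cp` is symmetric -/
theorem Cp.symm {K : Subgroup (GLE E)} {V W : Submodule ℝ E} (h : Cp K V W) : Cp K W V := by
  refine ⟨fun k hk x hx y hy e => ?_, by rw [add_comm]; exact h.dim⟩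
  have h1 : y = (k⁻¹ : GLE E).1 x := by rw [e, cv_im]
  have h2 := h.disj k⁻¹ (K.inv_mem hk) y hy x hx h1
  rw [e, h2, map_zero]

/-- `Cp` for a smaller group -/
theorem Cp.mono {K K' : Subgroup (GLE E)} (hK : K' ≤ K) {V W : Submodule ℝ E} (h : Cp K V W) :
    Cp K' V W := by
  exact ⟨fun k hk => h.disj k (hK hk), h.dim⟩

/-- `Cp` for a translate of `W` -/
theorem Cp.im {K : Subgroup (GLE E)} {V W : Submodule ℝ E} (h : Cp K V W) {k : GLE E}
    (hk : k ∈ K) : Cp K V (LTS.im k W) := by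
  refine ⟨fun k' hk' x hx y hy e => ?_, by rw [finrank_im]; exact h.dim⟩
  obtain ⟨w, hw, rfl⟩ := hy
  exact h.disj (k' * k) (K.mul_mem hk' hk) x hx w hw e

end top

end LTS

end Pool.Agent.MP417P
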