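import Pool.Agent.Lib.MP_417c68_gt_P.A.Alg

/-!
# MP_417c68_gt, project P, module A/Ons: orthonormal bases and orthogonal complements

PROOFS.  `exists_ob`: Gram-Schmidt for the positive definite form `ip` on `V`; for instance build
an inner product space structure on `V` with `InnerProductSpace.ofCore` (core: `inner x y = ip x y`)
and take `stdOrthonormalBasis`; or induction on the dimension.  `OB.swap`:
`∑ i, B (A e_i) e_i = ∑ i j, ip (A e_i) e_j • B e_j e_i = ∑ i j, ip e_i (A' e_j) • B e_j e_i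
= ∑ j, B e_j (A' e_j)`.  `exists_proj`: `P x = ∑ i, ip x e_i • e_i`.
-/

noncomputable section

namespace Pool.Agent.MP417P

open Module

namespace LTS

variable {E F : Type} [AddCommGroup E] [Module ℝ E] [AddCommGroup F] [Module ℝ F] (S : LTS E)

/-- `e` is an orthonormal basis of `V` -/
structure OB (S : LTS E) (V : Submodule ℝ E) {m : ℕ} (e : Fin m → E) : Prop where
  on : ∀ i j, S.ip (e i) (e j) = if i = j then 1 else 0
  mem : ∀ i, e i ∈ V
  exp : ∀ x ∈ V, x = ∑ i, S.ip x (e i) • e i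

variable {S} in
theorem OB.parseval {V : Submodule ℝ E} {m : ℕ} {e : Fin m → E} (he : S.OB V e) {x : E}
    (hx : x ∈ V) (y : E) : S.ip x y = ∑ i, S.ip x (e i) * S.ip y (e i) := by
  conv_lhs => rw [he.exp x hx]
  rw [map_sum, LinearMap.sum_apply]
  refine Finset.sum_congr rfl fun i _ => ?_
  rw [map_smul, LinearMap.smul_apply, smul_eq_mul, S.symm (e i) y]

variable {S} in
/-- `∑ B (A e_i) e_i = ∑ B e_i (A' e_i)` for the transpose `A'` of `A` -/
theorem OB.swap {V : Submodule ℝ E} {m : ℕ} {e : Fin m → E} (he : S.OB V e)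
    (B : E →ₗ[ℝ] E →ₗ[ℝ] F) {A A' : E →ₗ[ℝ] E} (hA : ∀ x ∈ V, A x ∈ V) (hA' : ∀ x ∈ V, A' x ∈ V)
    (h : ∀ x ∈ V, ∀ y ∈ V, S.ip (A x) y = S.ip x (A' y)) :
    ∑ i, B (A (e i)) (e i) = ∑ i, B (e i) (A' (e i)) := by
  have h1 : ∀ i, B (A (e i)) (e i) = ∑ j, S.ip (A (e i)) (e j) • B (e j) (e i) := by
    intro i
    conv_lhs => rw [he.exp _ (hA _ (he.mem i))]
    rw [map_sum, LinearMap.sum_apply]
    exact Finset.sum_congr rfl fun j _ => by rw [map_smul, LinearMap.smul_apply]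
  have h2 : ∀ j, B (e j) (A' (e j)) = ∑ i, S.ip (A (e i)) (e j) • B (e j) (e i) := by
    intro j
    conv_lhs => rw [he.exp _ (hA' _ (he.mem j))]
    rw [map_sum]
    refine Finset.sum_congr rfl fun i _ => ?_
    rw [map_smul, h _ (he.mem i) _ (he.mem j), S.symm]
  calc ∑ i, B (A (e i)) (e i) = ∑ i, ∑ j, S.ip (A (e i)) (e j) • B (e j) (e i) :=
        Finset.sum_congr rfl fun i _ => h1 i
    _ = ∑ j, ∑ i, S.ip (A (e i)) (e j) • B (e j) (e i) := Finset.sum_comm
    _ = ∑ j, B (e j) (A' (e j)) := Finset.sum_congr rfl fun j _ => (h2 j).symm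

variable [FiniteDimensional ℝ E]

theorem exists_ob (V : Submodule ℝ E) : ∃ e : Fin (finrank ℝ V) → E, S.OB V e := by
  obtain ⟨B, hB⟩ : ∃ B : LinearMap.BilinForm ℝ V, ∀ x y, B x y = S.ip x.1 y.1 :=
    ⟨S.ip.compl₁₂ V.subtype V.subtype, fun x y => rfl⟩
  have hs : LinearMap.IsSymm B := LinearMap.isSymm_def.2 fun x y => by
    rw [hB, hB, S.symm]
    rfl
  obtain ⟨v, hv⟩ := LinearMap.BilinForm.exists_orthogonal_basis hs
  rw [LinearMap.isOrthoᵢ_def] at hv
  have hpos : ∀ i, 0 < S.ip (v i).1 (v i).1 := fun i =>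
    S.pos _ fun h => v.ne_zero i (Subtype.ext h)
  have hort : ∀ i j, i ≠ j → S.ip (v i).1 (v j).1 = 0 := fun i j hij => by
    rw [← hB]
    exact hv i j hij
  obtain ⟨n, hn⟩ : ∃ n : Fin (finrank ℝ V) → ℝ, ∀ i, n i = Real.sqrt (S.ip (v i).1 (v i).1) :=
    ⟨_, fun i => rfl⟩
  have hn0 : ∀ i, n i ≠ 0 := fun i => by
    rw [hn]
    exact (Real.sqrt_pos.2 (hpos i)).ne'
  have hnn : ∀ i, S.ip (v i).1 (v i).1 = n i * n i := fun i => by
    rw [hn, Real.mul_self_sqrt (hpos i).le]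
  refine ⟨fun i => (n i)⁻¹ • (v i).1, ⟨fun i j => ?_, fun i => V.smul_mem _ (v i).2,
    fun x hx => ?_⟩⟩
  · rw [map_smul, map_smul, LinearMap.smul_apply, smul_eq_mul, smul_eq_mul]
    split_ifs with h
    · subst h
      rw [hnn]
      field_simp [hn0 i]
    · rw [hort i j h, mul_zero, mul_zero]
  · have h1 : x = ∑ i, v.repr ⟨x, hx⟩ i • (v i).1 := by
      have h2 := congrArg Subtype.val (v.sum_repr ⟨x, hx⟩)
      rw [Submodule.coe_sum] at h2
      exact h2.symm
    conv_lhs => rw [h1]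
    refine Finset.sum_congr rfl fun i _ => ?_
    have h3 : S.ip x (v i).1 = v.repr ⟨x, hx⟩ i * (n i * n i) := by
      conv_lhs => rw [h1]
      rw [map_sum, LinearMap.sum_apply, Finset.sum_eq_single i]
      · rw [map_smul, LinearMap.smul_apply, smul_eq_mul, hnn]
      · intro j _ hj
        rw [map_smul, LinearMap.smul_apply, hort j i hj, smul_zero]
      · intro h
        exact absurd (Finset.mem_univ i) h
    rw [map_smul, smul_eq_mul, h3, smul_smul]
    refine congrArg (fun c => c • (v i).1) ?_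
    field_simp [hn0 i]

theorem exists_proj (V : Submodule ℝ E) : ∃ P : E →ₗ[ℝ] E, (∀ x, P x ∈ V) ∧ (∀ x ∈ V, P x = x) ∧
    (∀ x y, S.ip (P x) y = S.ip x (P y)) ∧ ∀ x, x - P x ∈ S.perp V := by
  obtain ⟨e, he⟩ := S.exists_ob V
  obtain ⟨P, hP⟩ : ∃ P : E →ₗ[ℝ] E, ∀ x, P x = ∑ i, S.ip x (e i) • e i := by
    refine ⟨∑ i, (S.ip.flip (e i)).smulRight (e i), fun x => ?_⟩
    rw [LinearMap.sum_apply]
    rfl
  have h1 : ∀ x ∈ V, P x = x := fun x hx => by
    rw [hP]
    exact (he.exp x hx).symm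
  have h2 : ∀ x y, S.ip (P x) y = S.ip x (P y) := by
    intro x y
    rw [hP, hP, map_sum, map_sum, LinearMap.sum_apply]
    refine Finset.sum_congr rfl fun i _ => ?_
    rw [map_smul, map_smul, LinearMap.smul_apply, smul_eq_mul, smul_eq_mul, S.symm (e i) y,
      mul_comm]
  refine ⟨P, fun x => ?_, h1, h2, fun x y hy => ?_⟩
  · rw [hP]
    exact V.sum_mem fun i _ => V.smul_mem _ (he.mem i)
  · rw [map_sub, LinearMap.sub_apply, h2, h1 y hy, sub_self]

theorem perp_perp (V : Submodule ℝ E) : S.perp (S.perp V) = V := by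
  refine le_antisymm (fun x hx => ?_) fun x hx y hy => ?_
  · obtain ⟨P, hP1, -, -, hP4⟩ := S.exists_proj V
    have h1 : S.ip x (x - P x) = 0 := hx _ (hP4 x)
    have h2 : S.ip (P x) (x - P x) = 0 := by
      rw [S.symm]
      exact hP4 x _ (hP1 x)
    have h3 : S.ip (x - P x) (x - P x) = 0 := by
      rw [S.ip.map_sub, LinearMap.sub_apply, h1, h2, sub_zero]
    rw [sub_eq_zero.1 (S.ip_zero h3)]
    exact hP1 x
  · rw [S.symm]
    exact hy x hx

theorem perp_inf (V : Submodule ℝ E) : V ⊓ S.perp V = ⊥ := by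
  refine (Submodule.eq_bot_iff _).2 fun x hx => ?_
  exact S.ip_zero (hx.2 x hx.1)

/-- orthogonal decomposition of `V` for a subspace `I` of `V` -/
theorem decomp {V I : Submodule ℝ E} (h : I ≤ V) : I ⊔ (V ⊓ S.perp I) = V := by
  refine le_antisymm (sup_le h inf_le_left) fun x hx => ?_
  obtain ⟨P, hP1, -, -, hP4⟩ := S.exists_proj I
  exact Submodule.mem_sup.2 ⟨P x, hP1 x, x - P x, ⟨V.sub_mem hx (h (hP1 x)), hP4 x⟩,
    add_sub_cancel _ _⟩

theorem finrank_decomp {V I : Submodule ℝ E} (h : I ≤ V) :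
    finrank ℝ I + finrank ℝ (V ⊓ S.perp I : Submodule ℝ E) = finrank ℝ V := by
  have h1 := Submodule.finrank_sup_add_finrank_inf_eq I (V ⊓ S.perp I)
  have h2 : I ⊓ (V ⊓ S.perp I) = ⊥ := by
    rw [eq_bot_iff, ← S.perp_inf I]
    exact le_inf inf_le_left (inf_le_right.trans inf_le_right)
  rw [S.decomp h, h2, finrank_bot, add_zero] at h1
  exact h1.symm

theorem finrank_perp (V : Submodule ℝ E) :
    finrank ℝ V + finrank ℝ (S.perp V) = finrank ℝ E := by
  have h1 := S.finrank_decomp (V := ⊤) (I := V) le_top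
  rw [top_inf_eq, finrank_top] at h1
  exact h1

end LTS

end Pool.Agent.MP417P
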