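import Pool.Agent.Lib.MP_417c68_gt_P.A.Cv

/-!
# MP_417c68_gt, project P, module A/Ric: the Ricci operator `Ric x = ∑ i, T x e_i e_i`

PROOFS (`e` is an orthonormal basis of `E`).
* `ric_symm`: `ip (Ric x) y = ∑ ip (T x e_i e_i) y = ∑ ip (T e_i y x) e_i` (`ps`)
  `= -∑ ip x (T e_i y e_i) = ∑ ip x (T y e_i e_i)`.
* `ric_nonneg`: `ip (T x e_i e_i) x = -ip e_i (T x e_i x) = -ip (T x e_i x) e_i ≥ 0` (`T_nonpos`).
* `ric_com`: if the sum is `0` then every term is `0`, `T x e_i = 0` by `T_zero`, so `T x y = 0`.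
* `ric_T`: `T a b (T x e_i e_i) = T (T a b x) e_i e_i + T x (T a b e_i) e_i + T x e_i (T a b e_i)`
  (`der`); the sum over `i` of the last two terms vanishes by `OB.swap` for the skew operator
  `T a b` and the bilinear map `(u, w) ↦ T x u w`.
* `T_ric`: `ip (T (Ric z) v x) y = ip (T x y (Ric z)) v = ip (Ric (T x y z)) v
  = ip (T x y z) (Ric v) = ip (T z (Ric v) x) y`.
* `ric_cz`: text section 2 (a).  `T (R z) z = T z (R z) = -T (R z) z`, so `T (R z) z = 0`;
  `T (R (R z)) z = T (R z) (R z) = 0`;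
  `T (R z) v (R z) = T z (R v) (R z) = -T (R v) (R z) z - T (R z) z (R v) = -T (R v) (R z) z`
  (`jac`),
  `T (R v) (R z) = T v (R (R z))`, `T v (R R z) z = -T (R R z) z v - T z v (R R z) = 0` (`jac`).
  So `T (R z) v (R z) = 0` and `T_zero`.
* `ric_surj`: `Ric` maps the subspace `cz V ⊓ perp (cen ⊤)` to itself and is injective on it
  (`ric_com`), so it is surjective on it (finite dimension).
* `hom_perp`: `x ∈ perp (cen ⊤)` is `Ric y = ∑ T y e_i e_i` (`ric_surj` with `V = ⊥`); apply `f` and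
  `T_perp`.
-/

noncomputable section

namespace Pool.Agent.MP417P

open Module

namespace LTS

variable {E : Type} [AddCommGroup E] [Module ℝ E] [FiniteDimensional ℝ E] (S : LTS E)

/-- a chosen orthonormal basis of `E` -/
def ob (S : LTS E) : Fin (finrank ℝ (⊤ : Submodule ℝ E)) → E := (S.exists_ob ⊤).choose

theorem ob_ob : S.OB ⊤ S.ob := (S.exists_ob ⊤).choose_spec

/-- the Ricci operator -/
def Ric (S : LTS E) : E →ₗ[ℝ] E where
  toFun x := ∑ i, S.T x (S.ob i) (S.ob i)
  map_add' x y := by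
    rw [← Finset.sum_add_distrib]
    exact Finset.sum_congr rfl fun i _ => by
      rw [map_add, LinearMap.add_apply, LinearMap.add_apply]
  map_smul' c x := by
    rw [RingHom.id_apply, Finset.smul_sum]
    exact Finset.sum_congr rfl fun i _ => by
      rw [map_smul, LinearMap.smul_apply, LinearMap.smul_apply]

theorem ric_apply (x : E) : S.Ric x = ∑ i, S.T x (S.ob i) (S.ob i) := rfl

omit [FiniteDimensional ℝ E] in
private theorem ip_ext {a b : E} (h : ∀ y, S.ip a y = S.ip b y) : a = b := by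
  have h1 : S.ip (a - b) (a - b) = 0 := by
    rw [S.ip.map_sub, LinearMap.sub_apply, h, sub_self]
  exact sub_eq_zero.1 (S.ip_zero h1)

omit [FiniteDimensional ℝ E] in
private theorem ip_sum_left {m : ℕ} (f : Fin m → E) (y : E) :
    S.ip (∑ i, f i) y = ∑ i, S.ip (f i) y := by
  rw [map_sum, LinearMap.sum_apply]

theorem ric_symm (x y : E) : S.ip (S.Ric x) y = S.ip x (S.Ric y) := by
  rw [ric_apply, ric_apply, ip_sum_left, map_sum]
  refine Finset.sum_congr rfl fun i _ => ?_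
  rw [S.ps, S.inv, S.skew (S.ob i) y (S.ob i), map_neg, neg_neg]

omit [FiniteDimensional ℝ E] in
private theorem term_nonneg (x e : E) : 0 ≤ S.ip (S.T x e e) x := by
  rw [S.inv, S.symm]
  exact neg_nonneg.2 (S.T_nonpos x e)

theorem ric_nonneg (x : E) : 0 ≤ S.ip (S.Ric x) x := by
  rw [ric_apply, ip_sum_left]
  exact Finset.sum_nonneg fun i _ => S.term_nonneg x (S.ob i)

theorem ric_com {x : E} (h : S.ip (S.Ric x) x = 0) (y : E) : S.T x y = 0 := by
  rw [ric_apply, ip_sum_left] at h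
  have h1 := (Finset.sum_eq_zero_iff_of_nonneg fun i _ => S.term_nonneg x (S.ob i)).1 h
  have h2 : ∀ i, S.T x (S.ob i) = 0 := fun i => by
    refine S.T_zero ?_
    have h3 := h1 i (Finset.mem_univ i)
    rw [S.inv, S.symm] at h3
    exact neg_eq_zero.1 h3
  rw [S.ob_ob.exp y trivial, map_sum]
  refine Finset.sum_eq_zero fun i _ => ?_
  rw [map_smul, h2, smul_zero]

theorem ric_T (a b x : E) : S.Ric (S.T a b x) = S.T a b (S.Ric x) := by
  have h := S.ob_ob.swap (S.T x) (A := S.T a b) (A' := -S.T a b) (fun _ _ => trivial)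
    (fun _ _ => trivial) fun u _ w _ => by
      rw [LinearMap.neg_apply, map_neg]
      exact S.inv a b u w
  rw [ric_apply, ric_apply, map_sum]
  have h1 : ∀ i, S.T a b (S.T x (S.ob i) (S.ob i)) = S.T (S.T a b x) (S.ob i) (S.ob i) +
      (S.T x (S.T a b (S.ob i)) (S.ob i) - S.T x (S.ob i) ((-S.T a b) (S.ob i))) := fun i => by
    rw [S.der, LinearMap.neg_apply, map_neg, sub_neg_eq_add, add_assoc]
  rw [Finset.sum_congr rfl fun i _ => h1 i, Finset.sum_add_distrib, Finset.sum_sub_distrib, h,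
    sub_self, add_zero]

theorem T_ric (z v : E) : S.T (S.Ric z) v = S.T z (S.Ric v) := by
  refine LinearMap.ext fun x => S.ip_ext fun y => ?_
  rw [S.ps, ← ric_T, ric_symm, S.ps]

theorem ric_cz {z v : E} (h : S.T z v = 0) : S.T (S.Ric z) v = 0 := by
  have h1 : S.T (S.Ric z) z = 0 := by
    have h2 := S.T_ric z z
    rw [S.T_neg (S.Ric z) z] at h2
    have h3 : (2 : ℝ) • S.T (S.Ric z) z = 0 := by
      rw [two_smul]
      nth_rewrite 2 [h2]
      exact add_neg_cancel _
    exact (smul_eq_zero.1 h3).resolve_left two_ne_zero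
  have h2 : S.T (S.Ric (S.Ric z)) z = 0 := by
    rw [S.T_ric (S.Ric z) z, S.T_self]
  have h3 : S.T v (S.Ric (S.Ric z)) z = 0 := by
    have h4 := S.jac v (S.Ric (S.Ric z)) z
    rw [h2, h, LinearMap.zero_apply, LinearMap.zero_apply, add_zero, add_zero] at h4
    exact h4
  have h4 : S.T (S.Ric v) (S.Ric z) z = 0 := by
    rw [S.T_ric v (S.Ric z), h3]
  have h5 : S.T (S.Ric z) v (S.Ric z) = 0 := by
    have h6 := S.jac z (S.Ric v) (S.Ric z)
    rw [h4, h1, LinearMap.zero_apply, add_zero, add_zero] at h6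
    rw [S.T_ric z v, h6]
  refine S.T_zero ?_
  rw [h5, map_zero, LinearMap.zero_apply]

theorem ric_mem (x : E) : S.Ric x ∈ S.perp (S.cen ⊤) := by
  rw [ric_apply]
  exact Submodule.sum_mem _ fun i _ => S.T_perp _ _ _

theorem ric_surj {V : Submodule ℝ E} {x : E} (hx : x ∈ S.cz V) (hx' : x ∈ S.perp (S.cen ⊤)) :
    ∃ y ∈ S.cz V, S.Ric y = x := by
  have hm : ∀ z ∈ S.cz V ⊓ S.perp (S.cen ⊤), S.Ric z ∈ S.cz V ⊓ S.perp (S.cen ⊤) :=
    fun z hz => ⟨fun y hy => S.ric_cz (hz.1 y hy), S.ric_mem z⟩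
  have hi : Function.Injective (S.Ric.restrict hm) := by
    rw [injective_iff_map_eq_zero]
    rintro ⟨z, hz⟩ h0
    have h1 : S.Ric z = 0 := congrArg Subtype.val h0
    have h2 : z ∈ S.cen ⊤ := ⟨trivial, fun y _ => S.ric_com (by
      rw [h1, map_zero, LinearMap.zero_apply]) y⟩
    exact Subtype.ext (S.ip_zero (hz.2 z h2))
  obtain ⟨⟨y, hy⟩, h⟩ := LinearMap.injective_iff_surjective.1 hi ⟨x, hx, hx'⟩
  exact ⟨y, hy.1, congrArg Subtype.val h⟩

/-- a homomorphism maps the semisimple part to the semisimple part -/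
theorem hom_perp {f : E →ₗ[ℝ] E} (hf : Hom S S f) {x : E} (hx : x ∈ S.perp (S.cen ⊤)) :
    f x ∈ S.perp (S.cen ⊤) := by
  have h0 : x ∈ S.cz (⊥ : Submodule ℝ E) := fun y hy => by
    rw [(Submodule.mem_bot ℝ).1 hy, map_zero]
  obtain ⟨y, _, h⟩ := S.ric_surj h0 hx
  rw [← h, ric_apply, map_sum]
  refine Submodule.sum_mem _ fun i _ => ?_
  rw [hf]
  exact S.T_perp _ _ _

end LTS

end Pool.Agent.MP417P
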